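import Pool.Agent.V11277.SZ

/-!
# A semigroup with finite double centralizers and a non-closed set `S_{≤ 4}`

The semigroup is `A ∪ {z, o}` with a product which is `z` or `o` on `A` and `o` otherwise; it is given
by the graph of the non-commuting pairs. The graph has vertices `f 0, f 1, f 2`, `t k` and `h n`; the
`t k` are joined to the `f i` and to the `h n` with `k < n`, and to every `t k` and every `h n` a path
of length two is attached. Then `h n` tends to `f 0`, the double centralizers of the `h n` have four
elements and the one of `f 0` has five.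
-/

set_option autoImplicit false

namespace Pool.Agent.Results.MP_b73301_gt.BoundedNotClosed

open Pool.Agent.V11277.SZ Pool.Agent.V11277.SZ.NS Filter

/-- The vertices of the graph. -/
inductive A : Type
  | f (i : Fin 3) : A
  | t (k : ℕ) : A
  | t1 (k : ℕ) : A
  | t2 (k : ℕ) : A
  | h (n : ℕ) : A
  | h1 (n : ℕ) : A
  | h2 (n : ℕ) : A

/-- The pairs with product `z`. -/
def R : A → A → Prop
  | .t _, .f _ => True
  | .t k, .h n => k < n
  | .t k, .t1 l => k = l
  | .t1 k, .t2 l => k = l
  | .h n, .h1 m => n = m
  | .h1 n, .h2 m => n = m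
  | _, _ => False

/-- The index of a vertex. -/
def idx : A → ℕ
  | .f _ => 0
  | .t k => k
  | .t1 k => k
  | .t2 k => k
  | .h n => n
  | .h1 n => n
  | .h2 n => n

/-- A special neighbour of a vertex. -/
def sp : A → A
  | .f _ => .t 0
  | .t k => .t1 k
  | .t1 k => .t2 k
  | .t2 k => .t1 k
  | .h n => .h1 n
  | .h1 n => .h2 n
  | .h2 n => .h1 n

theorem sp_nb (x : A) : sp x ∈ nb R x := by
  cases x <;> simp [sp, nb, R]

theorem idx_eq (x g : A) (h : sp x ∈ nb R g) : (∃ i, x = A.f i) ∨ idx x = idx g := by
  cases x <;> cases g <;> simp_all [sp, nb, R, idx]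

theorem finite_idx (N : ℕ) : {x : A | (∃ i, x = A.f i) ∨ idx x = N}.Finite := by
  have : {x : A | (∃ i, x = A.f i) ∨ idx x = N} ⊆
      Set.range A.f ∪ {A.t N, A.t1 N, A.t2 N, A.h N, A.h1 N, A.h2 N} := by
    rintro x (⟨i, rfl⟩ | h)
    · exact Or.inl ⟨i, rfl⟩
    · cases x <;> simp_all [idx]
  refine Set.Finite.subset ?_ this
  refine (Set.finite_range _).union ?_
  exact Set.toFinite _

theorem fdc : FiniteDoubleCentralizers (NS A R) := by
  intro F hF
  have hfin : (⋃ g ∈ F, {x : A | ∃ a, g = el a ∧ ((∃ i, x = A.f i) ∨ idx x = idx a)}).Finite := by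
    refine hF.biUnion fun g _ => ?_
    rcases g with a | _ | _
    · refine (finite_idx (idx a)).subset ?_
      rintro x ⟨b, hb, hx⟩
      injection hb with hb
      rw [hb]
      exact hx
    · refine Set.finite_empty.subset ?_
      rintro x ⟨a, ha, _⟩
      cases ha
    · refine Set.finite_empty.subset ?_
      rintro x ⟨a, ha, _⟩
      cases ha
  refine ((hfin.image (fun x => (el x : NS A R))).union
    (Set.toFinite {(z : NS A R), (o : NS A R)})).subset ?_
  rintro (x | _ | _) hx
  · left
    refine ⟨x, ?_, rfl⟩
    rw [mem_dc] at hx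
    obtain ⟨g, hg, hgx⟩ := hx (sp x) (sp_nb x)
    exact Set.mem_biUnion hg ⟨g, rfl, idx_eq x g hgx⟩
  · right
    simp
  · right
    simp

theorem dc_h (n : ℕ) : (el (A.h n) : NS A R) ∈ smallDC (NS A R) 4 := by
  have hsub : Set.centralizer (Set.centralizer {(el (A.h n) : NS A R)}) ⊆
      ({el (A.h n), el (A.h2 n), z, o} : Set (NS A R)) := by
    rintro (x | _ | _) hx
    · rw [mem_dc] at hx
      have h1 := hx (sp x) (sp_nb x)
      have h2 := hx (A.t n)
      have h3 := hx (A.f 0)
      cases x <;> simp_all [sp, nb, R]
    · simp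
    · simp
  refine (Set.encard_le_encard hsub).trans ?_
  refine (Set.encard_insert_le _ _).trans ?_
  refine (add_le_add_left (Set.encard_insert_le _ _) _).trans ?_
  refine (add_le_add_left (add_le_add_left (Set.encard_insert_le _ _) _) _).trans ?_
  rw [Set.encard_singleton]
  norm_num

theorem dc_f : (el (A.f 0) : NS A R) ∉ smallDC (NS A R) 4 := by
  intro hcon
  have hsub : ({el (A.f 0), el (A.f 1), el (A.f 2), z, o} : Set (NS A R)) ⊆
      Set.centralizer (Set.centralizer {(el (A.f 0) : NS A R)}) := by
    have key : ∀ i : Fin 3, (el (A.f i) : NS A R) ∈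
        Set.centralizer (Set.centralizer {(el (A.f 0) : NS A R)}) := by
      intro i
      rw [mem_dc]
      intro y hy
      refine ⟨A.f 0, rfl, ?_⟩
      cases y <;> simp_all [nb, R]
    rintro x (rfl | rfl | rfl | rfl | rfl)
    · exact key 0
    · exact key 1
    · exact key 2
    · exact fun m _ => (z_comm m).symm
    · exact fun m _ => (o_comm m).symm
  have h5 : ({el (A.f 0), el (A.f 1), el (A.f 2), z, o} : Set (NS A R)).encard = 5 := by
    rw [Set.encard_insert_of_notMem, Set.encard_insert_of_notMem, Set.encard_insert_of_notMem,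
      Set.encard_insert_of_notMem, Set.encard_singleton]
    · norm_num
    all_goals simp
  have h6 := (Set.encard_le_encard hsub).trans hcon
  rw [h5] at h6
  exact absurd h6 (by decide)

/-- There is a semigroup with finite double centralizers for which the set of the elements `f` with
`|Cent(Cent(f))| ≤ 4` is not closed in the semi-Zariski topology. -/
theorem result : ∃ (S : Type) (_ : Semigroup S) (n : ℕ), FiniteDoubleCentralizers S ∧
    ¬ @IsClosed S (semiZariski S) (smallDC S n) := by
  refine ⟨NS A R, inferInstance, 4, fdc, fun hcl => ?_⟩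
  have ht : Tendsto (fun n => (el (A.h n) : NS A R)) atTop
      (@nhds _ (semiZariski (NS A R)) (el (A.f 0))) := by
    refine tendsto_semiZariski ?_ ?_ ?_
    · intro a
      filter_upwards [eventually_gt_atTop (idx a)] with n hn
      rintro rfl
      exact lt_irrefl _ hn
    · intro a
      filter_upwards [eventually_gt_atTop (idx a)] with n hn
      cases a <;> simp_all [R, idx]
    · intro a
      filter_upwards [eventually_gt_atTop (idx a)] with n hn
      cases a <;> simp_all [R, idx]
      omega
  let _ := semiZariski (NS A R)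
  exact dc_f (hcl.mem_of_tendsto ht (Eventually.of_forall dc_h))

end Pool.Agent.Results.MP_b73301_gt.BoundedNotClosed
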