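import Pool.Agent.V11277.Heis

/-!
# A set `S_{≤ 4}` which is not sigma-discrete in the semi-Zariski topology

In the Heisenberg group of `Pool.Agent.V11277.Heis` the double centralizers of all elements have at
most four elements, and the group is not sigma-discrete.
-/

set_option autoImplicit false

namespace Pool.Agent.Results.MP_b73301_gt.BoundedNotSigmaDiscrete

open Pool.Agent.V11277.SZ

/-- There is a semigroup (even a group) with finite double centralizers for which, for some `n`, the
set of the elements `f` with `|Cent(Cent(f))| ≤ n` is not a countable union of discrete subspaces in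
the semi-Zariski topology. -/
theorem result : ∃ (S : Type) (_ : Group S) (n : ℕ), FiniteDoubleCentralizers S ∧
    ¬ SigmaDiscreteSet S (smallDC S n) := by
  refine ⟨Heis, inferInstance, 4, Heis.fdc, ?_⟩
  have h : smallDC Heis 4 = Set.univ := Set.eq_univ_of_forall fun f => Heis.dc_le f
  rw [h]
  exact Heis.not_sigmaDiscrete

end Pool.Agent.Results.MP_b73301_gt.BoundedNotSigmaDiscrete
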